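import Pool.Agent.Helper57.QZ.Stmts

/-! Row EP of sheet QZ (MP_818aa8): the Dirichlet series of `Fy`. -/

set_option autoImplicit false

namespace Pool.Agent.Helper32.QZ

open Pool.Agent.Helper57.QZ

theorem hs_congr {f g : ℕ → ℂ} {a : ℂ} (h : ∀ n, f n = g n) : HasSum f a ↔ HasSum g a := by
  rw [funext h]

/-- the general term -/
noncomputable def gt (T : Finset ℕ) (s : ℂ) (n : ℕ) : ℂ :=
  if n ≠ 0 ∧ ∀ p ∈ T, ¬ p ∣ n then (n : ℂ) ^ (-s) else 0

theorem hasSum_gt (s : ℂ) (hs : 1 < s.re) (T : Finset ℕ) : (∀ p ∈ T, p.Prime) →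
    HasSum (gt T s) (riemannZeta s * ∏ p ∈ T, (1 - (p : ℂ) ^ (-s))) := by
  classical
  induction T using Finset.induction_on with
  | empty =>
    intro _
    have h1 : HasSum (fun n : ℕ => 1 / (n : ℂ) ^ s) (riemannZeta s) := by
      rw [zeta_eq_tsum_one_div_nat_cpow hs]
      exact (Complex.summable_one_div_nat_cpow.2 hs).hasSum
    rw [Finset.prod_empty, mul_one]
    convert h1 using 1
    funext n
    unfold gt
    by_cases hn : n = 0
    · subst hn
      have hs0 : s ≠ 0 := by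
        intro h
        rw [h, Complex.zero_re] at hs
        linarith
      simp [Complex.zero_cpow hs0]
    · rw [if_pos ⟨hn, by simp⟩, Complex.cpow_neg, one_div]
  | insert p T hp ih =>
    intro hT
    have hpp : p.Prime := hT p (Finset.mem_insert_self p T)
    have hTT : ∀ l ∈ T, l.Prime := fun l hl => hT l (Finset.mem_insert_of_mem hl)
    have h1 := ih hTT
    -- the multiples of `p`
    have h2 : HasSum (fun n : ℕ => if p ∣ n then gt T s n else 0)
        ((p : ℂ) ^ (-s) * (riemannZeta s * ∏ p ∈ T, (1 - (p : ℂ) ^ (-s)))) := by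
      have hinj : Function.Injective (fun m : ℕ => p * m) :=
        fun a b h => Nat.eq_of_mul_eq_mul_left hpp.pos h
      have hsup : ∀ x ∉ Set.range (fun m : ℕ => p * m),
          (fun n : ℕ => if p ∣ n then gt T s n else 0) x = 0 := by
        intro x hx
        have : ¬ p ∣ x := by
          rintro ⟨m, rfl⟩
          exact hx ⟨m, rfl⟩
        simp only [this, if_false]
      rw [← hinj.hasSum_iff hsup]
      have h4 := h1.mul_left ((p : ℂ) ^ (-s))
      refine (hs_congr fun m => ?_).2 h4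
      simp only [Function.comp_apply, dvd_mul_right, if_true]
      unfold gt
      have hiff : (p * m ≠ 0 ∧ ∀ l ∈ T, ¬ l ∣ p * m) ↔ (m ≠ 0 ∧ ∀ l ∈ T, ¬ l ∣ m) := by
        constructor
        · rintro ⟨a, b⟩
          exact ⟨fun h => a (by rw [h, mul_zero]), fun l hl h => b l hl (h.mul_left p)⟩
        · rintro ⟨a, b⟩
          refine ⟨mul_ne_zero hpp.ne_zero a, fun l hl h => ?_⟩
          rcases ((hTT l hl).dvd_mul).1 h with h' | h'
          · have := (Nat.prime_dvd_prime_iff_eq (hTT l hl) hpp).1 h'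
            exact hp (this ▸ hl)
          · exact b l hl h'
      simp only [hiff]
      split_ifs
      · push_cast
        rw [Complex.natCast_mul_natCast_cpow]
      · rw [mul_zero]
    have h3 := h1.sub h2
    rw [Finset.prod_insert hp, show riemannZeta s * ((1 - (p : ℂ) ^ (-s)) *
      ∏ x ∈ T, (1 - (x : ℂ) ^ (-s))) = riemannZeta s * ∏ p ∈ T, (1 - (p : ℂ) ^ (-s)) -
        (p : ℂ) ^ (-s) * (riemannZeta s * ∏ p ∈ T, (1 - (p : ℂ) ^ (-s))) by ring]
    refine (hs_congr fun n => ?_).2 h3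
    · unfold gt
      by_cases hd : p ∣ n
      · have : ¬ (n ≠ 0 ∧ ∀ l ∈ insert p T, ¬ l ∣ n) :=
          fun h => h.2 p (Finset.mem_insert_self p T) hd
        rw [if_neg this, if_pos hd, sub_self]
      · have hiff : (n ≠ 0 ∧ ∀ l ∈ insert p T, ¬ l ∣ n) ↔ (n ≠ 0 ∧ ∀ l ∈ T, ¬ l ∣ n) := by
          simp [hd]
        rw [if_neg hd, sub_zero]
        simp only [hiff]

theorem st_ep : ST_EP := by
  intro y s hs
  have hT : ∀ p ∈ Nat.primesBelow (y + 1), p.Prime := fun p hp => Nat.prime_of_mem_primesBelow hp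
  have h1 := hasSum_gt s hs (Nat.primesBelow (y + 1)) hT
  have h2 : HasSum (fun n : ℕ => if n = 1 then (1 : ℂ) else 0) 1 := hasSum_ite_eq 1 1
  have h3 := h1.sub h2
  have h4 : Fy y s = riemannZeta s * ∏ p ∈ Nat.primesBelow (y + 1), (1 - (p : ℂ) ^ (-s)) - 1 := by
    unfold Fy
    congr 2
    exact Finset.prod_coe_sort (Nat.primesBelow (y + 1)) (fun p : ℕ => (1 - (p : ℂ) ^ (-s)))
  rw [h4]
  refine (hs_congr fun n => ?_).2 h3
  · unfold gt
    by_cases h1 : n = 1
    · subst h1
      have a1 : ¬ (2 ≤ 1 ∧ ∀ p ∈ Nat.primeFactors 1, y < p) := by omega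
      have a2 : (1 ≠ 0 ∧ ∀ p ∈ Nat.primesBelow (y + 1), ¬ p ∣ 1) :=
        ⟨one_ne_zero, fun p hp h => (hT p hp).one_lt.ne' (Nat.dvd_one.1 h)⟩
      rw [if_neg a1, if_pos a2, if_pos rfl]
      simp
    · rw [if_neg h1, sub_zero]
      have hiff : (2 ≤ n ∧ ∀ p ∈ n.primeFactors, y < p) ↔
          (n ≠ 0 ∧ ∀ p ∈ Nat.primesBelow (y + 1), ¬ p ∣ n) := by
        constructor
        · rintro ⟨a, b⟩
          refine ⟨by omega, fun p hp hd => ?_⟩
          have h5 := b p (Nat.mem_primeFactors.2 ⟨hT p hp, hd, by omega⟩)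
          have h6 := Nat.lt_of_mem_primesBelow hp
          omega
        · rintro ⟨a, b⟩
          refine ⟨by omega, fun p hp => ?_⟩
          by_contra hlt
          exact b p (Nat.mem_primesBelow.2 ⟨by omega, Nat.prime_of_mem_primeFactors hp⟩)
            (Nat.dvd_of_mem_primeFactors hp)
      simp only [hiff]

end Pool.Agent.Helper32.QZ
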